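import Pool.Agent.R884.AffB.Main

set_option autoImplicit false

/-!
# Affine Baire-one maps into spaces with the approximation property

Let `E` be a real or complex normed space with the approximation property. Then for every compact
convex set `X` in a Hausdorff locally convex space, every affine map `X → E` of the first Baire
class is the pointwise limit of a sequence of continuous affine maps `X → E`.

The definitions `IsAffine`, `HasAP`, `IsBaireOne`, `IsAffineOne` are in
`Pool.Agent.R884.AffB.Formula`, `Core` and `Main`.
-/

namespace Pool.Agent.Results.MP_04557e_an.ApproxPropertySuffices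

open Pool.Agent.R884.AffB

/-- **Main theorem.** If `E` has the approximation property, every affine `f ∈ C₁(X,E)` belongs
to `𝔄₁(X,E)`. -/
theorem result {𝕜 : Type*} [RCLike 𝕜] {E : Type*} [NormedAddCommGroup E] [NormedSpace 𝕜 E]
    [NormedSpace ℝ E] [IsScalarTower ℝ 𝕜 E] (hE : HasAP 𝕜 E)
    {V : Type*} [AddCommGroup V] [Module ℝ V] [TopologicalSpace V] [IsTopologicalAddGroup V]
    [ContinuousSMul ℝ V] [LocallyConvexSpace ℝ V] [T2Space V]
    (X : Set V) (hX : IsCompact X) (hc : Convex ℝ X) (f : X → E) (hf : IsAffine X f)
    (h1 : IsBaireOne X Set.univ f) : IsAffineOne X Set.univ f :=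
  main_univ hE X hX hc f hf h1

end Pool.Agent.Results.MP_04557e_an.ApproxPropertySuffices
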